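import Pool.Agent.P.MP_06bfdf_gt.Tpp
import Pool.Agent.P.MP_06bfdf_gt.Count

/-! The parabola surface with cross-caps. -/

open Set Topology Filter
open scoped ContDiff

namespace Pool.Agent.P.MP_06bfdf_gt.X

/-- A smooth maximum of the argument and one. -/
noncomputable def gg (s : ℝ) : ℝ := 1 + ramp (s - 1)

lemma gg_out {s : ℝ} (h : 2 ≤ s) : gg s = s := by
  unfold gg; rw [ramp_of_ge (by linarith)]; ring
lemma gg_pos (s : ℝ) : 0 < gg s := by unfold gg; linarith [ramp_nonneg (s - 1)]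
lemma le_gg (s : ℝ) : s ≤ gg s := by unfold gg; linarith [le_ramp (s - 1)]
lemma gg_mono {s t : ℝ} (h : s ≤ t) : gg s ≤ gg t := by
  unfold gg; linarith [ramp_mono (show s - 1 ≤ t - 1 by linarith)]
lemma gg_lip {s t : ℝ} (h : s ≤ t) : gg t ≤ gg s + (t - s) := by
  unfold gg; linarith [ramp_lip (show s - 1 ≤ t - 1 by linarith)]
lemma gg_mid {s t r : ℝ} (h : 2 * r ≤ s + t) : 2 * gg r ≤ gg s + gg t := by
  have h1 := mid_le ramp_convex ((s + t) / 2 - 1) ((s - t) / 2)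
  have h2 := gg_mono (show r ≤ (s + t) / 2 by linarith)
  rw [show (s + t) / 2 - 1 + (s - t) / 2 = s - 1 by ring,
    show (s + t) / 2 - 1 + -((s - t) / 2) = t - 1 by ring] at h1
  unfold gg at *
  linarith
@[fun_prop] lemma gg_smooth : ContDiff ℝ ∞ gg := by unfold gg; fun_prop
@[fun_prop] lemma gg_cont : Continuous gg := gg_smooth.continuous

/-- The square of the norm of the first two coordinates. -/
def nq (y : R4) : ℝ := y.1 ^ 2 + y.2.1 ^ 2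

@[fun_prop] lemma nq_smooth : ContDiff ℝ ∞ nq := by unfold nq; fun_prop
@[fun_prop] lemma nq_cont : Continuous nq := nq_smooth.continuous

/-- The complex parabola. -/
def pb (w : R2) : R4 := (w.1, w.2, w.1 ^ 2 - w.2 ^ 2, 2 * w.1 * w.2)

/-- The point lies on the complex parabola. -/
def Pb (y : R4) : Prop := y.2.2.1 = y.1 ^ 2 - y.2.1 ^ 2 ∧ y.2.2.2 = 2 * y.1 * y.2.1

lemma Pb.eq {y : R4} (h : Pb y) : pb (y.1, y.2.1) = y :=
  Prod.ext rfl (Prod.ext rfl (Prod.ext h.1.symm h.2.symm))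

lemma Pb_pb (w : R2) : Pb (pb w) := ⟨rfl, rfl⟩

/-- The affine symmetry of the parabola that moves `p` to the origin. -/
def sh (p : ℝ) (y : R4) : R4 :=
  (y.1 - p, y.2.1, y.2.2.1 - 2 * p * y.1 + p ^ 2, y.2.2.2 - 2 * p * y.2.1)

@[fun_prop] lemma sh_smooth (p : ℝ) : ContDiff ℝ ∞ (sh p) := by unfold sh; fun_prop
@[fun_prop] lemma sh_cont (p : ℝ) : Continuous (sh p) := (sh_smooth p).continuous

lemma sh_sh (p : ℝ) (y : R4) : sh p (sh (-p) y) = y := by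
  simp only [sh]
  refine Prod.ext ?_ (Prod.ext rfl (Prod.ext ?_ ?_)) <;> simp only <;> ring

lemma sh_sh' (p : ℝ) (y : R4) : sh (-p) (sh p y) = y := by simpa using sh_sh (-p) y

lemma Pb_sh (p : ℝ) (y : R4) : Pb (sh p y) ↔ Pb y := by
  simp only [Pb, sh]
  constructor <;> rintro ⟨h1, h2⟩ <;> constructor <;> linarith

/-- The parabola with one cross-cap at the origin. -/
def K : Set R4 := {y | y.2.2.1 ^ 2 + y.2.2.2 ^ 2 = gg (nq y) ^ 2 ∧
  y.2.2.1 * nq y = gg (nq y) * (y.1 ^ 2 - y.2.1 ^ 2) ∧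
  y.2.2.2 * nq y = gg (nq y) * (2 * y.1 * y.2.1)}

lemma isClosed_K : IsClosed K := by
  refine IsClosed.and (isClosed_eq ?_ ?_) (IsClosed.and (isClosed_eq ?_ ?_) (isClosed_eq ?_ ?_)) <;>
    fun_prop

lemma K_far {y : R4} (h : 2 ≤ nq y) : y ∈ K ↔ Pb y := by
  have h0 : nq y ≠ 0 := by linarith
  simp only [K, mem_ofPred_eq, gg_out h, mul_comm (nq y), mul_left_inj' h0]
  refine ⟨fun h => h.2, fun h => ⟨?_, h⟩⟩
  rw [h.1, h.2, nq]; ring

/-- The parametrisation by a signed radius and a direction. -/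
noncomputable def cap (x u v : ℝ) : R4 :=
  (x * u, x * v, gg (x ^ 2 * (u ^ 2 + v ^ 2)) * ((u ^ 2 - v ^ 2) / (u ^ 2 + v ^ 2)),
    gg (x ^ 2 * (u ^ 2 + v ^ 2)) * (2 * u * v / (u ^ 2 + v ^ 2)))

lemma nq_cap (x u v : ℝ) : nq (cap x u v) = x ^ 2 * (u ^ 2 + v ^ 2) := by
  simp only [nq, cap]; ring

lemma cap_mem (x : ℝ) {u v : ℝ} (h : u ^ 2 + v ^ 2 ≠ 0) : cap x u v ∈ K := by
  simp only [K, mem_ofPred_eq, nq_cap]
  simp only [cap]
  refine ⟨?_, ?_, ?_⟩ <;> field_simp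
  ring

lemma K_A {y : R4} (hy : y ∈ K) (h : 0 < gg (nq y) + y.2.2.1) :
    cap y.1 1 (y.2.2.2 / (gg (nq y) + y.2.2.1)) = y := by
  obtain ⟨a, b, c, d⟩ := y
  obtain ⟨h1, h2, h3⟩ := hy
  have hg := gg_pos (nq (a, b, c, d))
  have e1 : a * (d / (gg (nq (a, b, c, d)) + c)) = b := by
    rw [← mul_div_assoc, div_eq_iff h.ne']
    by_cases h0 : nq (a, b, c, d) = 0
    · simp only [nq] at h0
      have ha : a = 0 := by nlinarith
      have hb : b = 0 := by nlinarith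
      simp [ha, hb]
    · refine mul_right_cancel₀ h0 ?_
      have e : nq (a, b, c, d) = a ^ 2 + b ^ 2 := rfl
      simp only at h2 h3
      linear_combination a * h3 - b * h2 - b * gg (nq (a, b, c, d)) * e
  have e2 : a ^ 2 * (1 ^ 2 + (d / (gg (nq (a, b, c, d)) + c)) ^ 2) = nq (a, b, c, d) := by
    rw [mul_add, ← mul_pow, ← mul_pow, e1, mul_one]; rfl
  simp only [cap, e1, e2, mul_one]
  simp only at h h1
  generalize gg (nq (a, b, c, d)) = G at *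
  have e3 : 1 ^ 2 + (d / (G + c)) ^ 2 = 2 * G / (G + c) := by
    field_simp; linear_combination h1
  have e4 : 1 ^ 2 - (d / (G + c)) ^ 2 = 2 * c / (G + c) := by
    field_simp; linear_combination -h1
  rw [e3, e4]
  refine Prod.ext rfl (Prod.ext rfl (Prod.ext ?_ ?_)) <;> simp only <;> field_simp

/-- The symmetry that exchanges the two axes. -/
def sw (y : R4) : R4 := (y.2.1, y.1, -y.2.2.1, y.2.2.2)

lemma nq_sw (y : R4) : nq (sw y) = nq y := add_comm _ _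

lemma K_B {y : R4} (hy : y ∈ K) (h : 0 < gg (nq y) - y.2.2.1) :
    cap y.2.1 (y.2.2.2 / (gg (nq y) - y.2.2.1)) 1 = y := by
  have h1 : sw y ∈ K := by
    obtain ⟨h1, h2, h3⟩ := hy
    simp only [K, mem_ofPred_eq, nq_sw]
    simp only [sw]
    exact ⟨by linarith, by linarith, by linarith⟩
  have h2 := K_A h1 (by rw [nq_sw]; exact h)
  rw [nq_sw] at h2
  simp only [sw, cap, Prod.mk.injEq, ← sub_eq_add_neg] at h2
  obtain ⟨a, b, c, d⟩ := h2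
  generalize y.2.2.2 / (gg (nq y) - y.2.2.1) = s at *
  rw [add_comm (1 ^ 2)] at c d
  refine Prod.ext b (Prod.ext a (Prod.ext ?_ ?_)) <;> simp only [cap]
  · linear_combination -c
  · linear_combination d

lemma K_par {y : R4} (hy : y ∈ K) : ∃ x u v, u ^ 2 + v ^ 2 ≠ 0 ∧ cap x u v = y := by
  have := gg_pos (nq y)
  rcases le_total 0 y.2.2.1 with h | h
  · exact ⟨_, _, _, by positivity, K_A hy (by linarith)⟩
  · exact ⟨_, _, _, by positivity, K_B hy (by linarith)⟩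

/-- `y` is a strict local minimum of the height function on `S`. -/
def Slm (S : Set R4) (a y : R4) : Prop := ∀ᶠ y' in 𝓝 y, y' ∈ S → y' ≠ y → ht a y < ht a y'

theorem K_saddle (a : R4) {y : R4} (hy : y ∈ K) : ¬ Slm K a y := by
  obtain ⟨x, u, v, hN, rfl⟩ := K_par hy
  intro h
  have hN' : 0 < u ^ 2 + v ^ 2 := lt_of_le_of_ne (by positivity) hN.symm
  obtain ⟨β, hβ⟩ : ∃ β, β = (a.2.2.1 * (u ^ 2 - v ^ 2) + a.2.2.2 * (2 * u * v)) / (u ^ 2 + v ^ 2) :=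
    ⟨_, rfl⟩
  have e : ∀ x, ht a (cap x u v) = x * (a.1 * u + a.2.1 * v) + gg (x ^ 2 * (u ^ 2 + v ^ 2)) * β := by
    intro x; simp only [ht, cap, hβ]; ring
  have ne1 : ∀ μ, μ ≠ 0 → cap (x + μ) u v ≠ cap x u v := fun μ hμ e => by
    simp only [cap, Prod.mk.injEq] at e
    refine mul_ne_zero hμ hN ?_
    linear_combination u * e.1 + v * e.2.1
  obtain ⟨μ, hμ, h1, h2⟩ := exists_pm (along h (fun μ => cap (x + μ) u v)
    (by unfold cap; fun_prop) (by simp))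
  have h1 := h1 (cap_mem _ hN) (ne1 _ hμ.ne')
  have h2 := h2 (cap_mem _ hN) (ne1 _ (neg_ne_zero.2 hμ.ne'))
  rw [e, e] at h1 h2
  have h3 := gg_mid (s := (x + μ) ^ 2 * (u ^ 2 + v ^ 2)) (t := (x + -μ) ^ 2 * (u ^ 2 + v ^ 2))
    (r := x ^ 2 * (u ^ 2 + v ^ 2)) (by nlinarith [mul_nonneg (sq_nonneg μ) hN'.le])
  have β0 : 0 < β := by
    by_contra hc
    nlinarith [mul_nonneg (sub_nonneg.2 h3) (neg_nonneg.2 (not_lt.1 hc))]
  have N2 : ∀ μ : ℝ, (u - μ * v) ^ 2 + (v + μ * u) ^ 2 = (u ^ 2 + v ^ 2) * (1 + μ ^ 2) :=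
    fun μ => by ring
  have ne2 : ∀ μ, μ ≠ 0 → cap x (u - μ * v) (v + μ * u) ≠ cap x u v := fun μ hμ e => by
    have e1 := congrArg (fun y : R4 => y.2.2.2 * (u ^ 2 - v ^ 2) - y.2.2.1 * (2 * u * v)) e
    simp only [cap, N2] at e1
    have hg := gg_pos (x ^ 2 * ((u ^ 2 + v ^ 2) * (1 + μ ^ 2)))
    refine (show gg (x ^ 2 * ((u ^ 2 + v ^ 2) * (1 + μ ^ 2))) * (2 * μ * (u ^ 2 + v ^ 2) ^ 2 /
      ((u ^ 2 + v ^ 2) * (1 + μ ^ 2))) ≠ 0 by positivity) ?_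
    linear_combination e1
  have cont : ContinuousAt (fun μ => cap x (u - μ * v) (v + μ * u)) 0 := by
    have : (u - 0 * v) ^ 2 + (v + 0 * u) ^ 2 ≠ 0 := by simpa using hN
    unfold cap
    fun_prop (disch := assumption)
  obtain ⟨μ, hμ, h1, h2⟩ := exists_pm (along h _ cont (by simp))
  have h1 := h1 (cap_mem _ (by rw [N2]; positivity)) (ne2 _ hμ.ne')
  have h2 := h2 (cap_mem _ (by rw [N2]; positivity)) (ne2 _ (neg_ne_zero.2 hμ.ne'))
  have h4 := add_lt_add h1 h2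
  have e2 : ht a (cap x (u - μ * v) (v + μ * u)) + ht a (cap x (u - -μ * v) (v + -μ * u)) =
      2 * x * (a.1 * u + a.2.1 * v) + 2 * (gg (x ^ 2 * ((u ^ 2 + v ^ 2) * (1 + μ ^ 2))) /
        (1 + μ ^ 2) * (1 - μ ^ 2)) * β := by
    simp only [ht, cap, N2, hβ, neg_sq]
    field_simp
    ring
  rw [e2, e] at h4
  have h5 := gg_lip (s := x ^ 2 * (u ^ 2 + v ^ 2)) (t := x ^ 2 * ((u ^ 2 + v ^ 2) * (1 + μ ^ 2)))
    (by nlinarith [mul_nonneg (mul_nonneg (sq_nonneg x) hN'.le) (sq_nonneg μ)])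
  have h6 := mul_le_mul_of_nonneg_right (le_gg (x ^ 2 * (u ^ 2 + v ^ 2))) (sq_nonneg μ)
  have h7 : gg (x ^ 2 * ((u ^ 2 + v ^ 2) * (1 + μ ^ 2))) / (1 + μ ^ 2) ≤
      gg (x ^ 2 * (u ^ 2 + v ^ 2)) := by
    rw [div_le_iff₀ (by positivity)]; linarith
  have h8 : 0 ≤ gg (x ^ 2 * ((u ^ 2 + v ^ 2) * (1 + μ ^ 2))) / (1 + μ ^ 2) * μ ^ 2 := by
    have := gg_pos (x ^ 2 * ((u ^ 2 + v ^ 2) * (1 + μ ^ 2)))
    positivity
  nlinarith

/-- A vertical strip. -/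
def St (r : ℝ) : Set R2 := {w | w.1 ^ 2 < r}

lemma St_open (r : ℝ) : IsOpen (St r) := isOpen_lt (by fun_prop) (by fun_prop)

lemma St_convex (r : ℝ) : Convex ℝ (St r) := by
  simpa [St] using quad_convex 1 0 0 r zero_le_one le_rfl

/-- First chart of the cross-cap. -/
noncomputable def kA : Chart K where
  W := St (25 / 4)
  O := {y | y.1 ^ 2 < 25 / 4 ∧ 0 < gg (nq y) + y.2.2.1}
  ψ w := cap w.1 1 w.2
  ρ y := (y.1, y.2.2.2 / (gg (nq y) + y.2.2.1))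
  oW := St_open _
  oO := by refine IsOpen.and (isOpen_lt ?_ ?_) (isOpen_lt ?_ ?_) <;> fun_prop
  sψ := by
    have : ∀ w : R2, 1 ^ 2 + w.2 ^ 2 ≠ 0 := fun w => by positivity
    refine ContDiff.contDiffOn ?_
    unfold cap
    fun_prop (disch := assumption)
  sρ := by
    have : ∀ y ∈ {y : R4 | y.1 ^ 2 < 25 / 4 ∧ 0 < gg (nq y) + y.2.2.1},
      gg (nq y) + y.2.2.1 ≠ 0 := fun y hy => hy.2.ne'
    fun_prop (disch := assumption)
  mem w hw := by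
    have hg := gg_pos (w.1 ^ 2 * (1 ^ 2 + w.2 ^ 2))
    have e : gg (nq (cap w.1 1 w.2)) + (cap w.1 1 w.2).2.2.1 =
        2 * gg (w.1 ^ 2 * (1 ^ 2 + w.2 ^ 2)) / (1 ^ 2 + w.2 ^ 2) := by
      rw [nq_cap]; simp only [cap]; field_simp; ring
    refine ⟨cap_mem _ (by positivity), ⟨by simpa [cap, St] using hw, by rw [e]; positivity⟩, ?_⟩
    rw [e]
    simp only [cap]
    generalize gg _ = G at *
    refine Prod.ext ?_ ?_ <;> simp only <;> field_simp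
  inv y hy hO := ⟨hO.1, K_A hy hO.2⟩

/-- Second chart of the cross-cap. -/
noncomputable def kB : Chart K where
  W := St 4
  O := {y | y.1 ^ 2 < 25 / 4 ∧ 0 < gg (nq y) - y.2.2.1 ∧
    ((1 + y.2.1 ^ 2) * y.2.2.2) ^ 2 < 4 * (gg (nq y) - y.2.2.1) ^ 2}
  ψ w := cap w.2 (w.1 / (1 + w.2 ^ 2)) 1
  ρ y := ((1 + y.2.1 ^ 2) * y.2.2.2 / (gg (nq y) - y.2.2.1), y.2.1)
  oW := St_open _
  oO := by
    refine IsOpen.and (isOpen_lt ?_ ?_) (IsOpen.and (isOpen_lt ?_ ?_) (isOpen_lt ?_ ?_)) <;>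
      fun_prop
  sψ := by
    have : ∀ w : R2, 1 + w.2 ^ 2 ≠ 0 := fun w => by positivity
    have : ∀ w : R2, (w.1 / (1 + w.2 ^ 2)) ^ 2 + 1 ^ 2 ≠ 0 := fun w => by positivity
    refine ContDiff.contDiffOn ?_
    unfold cap
    fun_prop (disch := assumption)
  sρ := by
    have : ∀ y ∈ {y : R4 | y.1 ^ 2 < 25 / 4 ∧ 0 < gg (nq y) - y.2.2.1 ∧
      ((1 + y.2.1 ^ 2) * y.2.2.2) ^ 2 < 4 * (gg (nq y) - y.2.2.1) ^ 2},
      gg (nq y) - y.2.2.1 ≠ 0 := fun y hy => hy.2.1.ne'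
    fun_prop (disch := assumption)
  mem w hw := by
    have hw : w.1 ^ 2 < 4 := hw
    obtain ⟨s, hs⟩ : ∃ s, s = w.1 / (1 + w.2 ^ 2) := ⟨_, rfl⟩
    have hs' : w.1 = (1 + w.2 ^ 2) * s := by rw [hs]; field_simp
    rw [← hs]
    have hg := gg_pos (w.2 ^ 2 * (s ^ 2 + 1 ^ 2))
    have e : gg (nq (cap w.2 s 1)) - (cap w.2 s 1).2.2.1 =
        2 * gg (w.2 ^ 2 * (s ^ 2 + 1 ^ 2)) / (s ^ 2 + 1 ^ 2) := by
      rw [nq_cap]; simp only [cap]; field_simp; ring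
    have e2 : (1 + (cap w.2 s 1).2.1 ^ 2) * (cap w.2 s 1).2.2.2 =
        w.1 * (2 * gg (w.2 ^ 2 * (s ^ 2 + 1 ^ 2)) / (s ^ 2 + 1 ^ 2)) := by
      rw [hs']; simp only [cap]; ring
    have p : 0 < 2 * gg (w.2 ^ 2 * (s ^ 2 + 1 ^ 2)) / (s ^ 2 + 1 ^ 2) := by positivity
    refine ⟨cap_mem _ (by positivity), ⟨?_, by rwa [e], ?_⟩, ?_⟩
    · rw [hs'] at hw
      simp only [cap]
      nlinarith [sq_nonneg s, sq_nonneg (w.2 ^ 2 * s)]
    · rw [e, e2, mul_pow]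
      exact mul_lt_mul_of_pos_right hw (by positivity)
    · rw [e, e2, mul_div_cancel_right₀ _ p.ne']
      simp [cap]
  inv y hy hO := by
    refine ⟨?_, ?_⟩
    · show (_ : ℝ) ^ 2 < _
      rw [div_pow, div_lt_iff₀ (pow_pos hO.2.1 2)]
      exact hO.2.2
    · rw [mul_div_assoc, mul_div_cancel_left₀ _ (by positivity)]
      exact K_B hy hO.2.1

lemma kB_A {y : R4} (hy : y ∈ K) (h : y ∈ kB.O) : y ∈ kA.O ↔ y.2.2.2 ≠ 0 := by
  have h1 := hy.1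
  have h2 := h.2.1
  refine ⟨fun h3 h0 => ?_, fun h3 => ⟨h.1, ?_⟩⟩
  · have := h3.2
    rw [h0] at h1
    nlinarith
  · have : 0 < y.2.2.2 ^ 2 := by positivity
    nlinarith

lemma k_cover {y : R4} (hy : y ∈ K) (h : y.1 ^ 2 < 25 / 4) : y ∈ kA.O ∨ y ∈ kB.O := by
  refine or_iff_not_imp_left.2 fun hA => ?_
  have h1 := hy.1
  have h2 : gg (nq y) + y.2.2.1 ≤ 0 := not_lt.1 fun h' => hA ⟨h, h'⟩
  have h3 := gg_pos (nq y)
  have h4 : y.2.2.2 = 0 := by nlinarith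
  have h5 : 0 < gg (nq y) - y.2.2.1 := by linarith
  exact ⟨h, h5, by rw [h4]; simpa using pow_pos h5 2⟩

/-- The parabola with `n` cross-caps. -/
def Sg (n : ℕ) : Set R4 := {y | (∀ j < n, 2 ≤ nq (sh (4 * j) y)) ∧ Pb y} ∪
  {y | ∃ j < n, nq (sh (4 * j) y) ≤ 2 ∧ sh (4 * j) y ∈ K}

variable {n : ℕ}

lemma Sg_far {y : R4} (h : ∀ j < n, 2 ≤ nq (sh (4 * j) y)) : y ∈ Sg n ↔ Pb y := by
  refine ⟨?_, fun h' => Or.inl ⟨h, h'⟩⟩
  rintro (h' | ⟨j, hj, -, h'⟩)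
  · exact h'.2
  · exact (Pb_sh _ _).1 ((K_far (h j hj)).1 h')

lemma far_of_ne {i j : ℕ} (hij : i ≠ j) {y : R4} (h : (sh (4 * j) y).1 ^ 2 < 25 / 4) :
    2 < (sh (4 * i) y).1 ^ 2 := by
  simp only [sh] at *
  have h1 := abs_lt_of_sq_lt_sq' (b := 5 / 2) (by linarith : (y.1 - 4 * j) ^ 2 < _) (by norm_num)
  rcases lt_or_gt_of_ne hij with h2 | h2
  · have : (i : ℝ) + 1 ≤ j := by exact_mod_cast h2
    nlinarith [h1.1]
  · have : (j : ℝ) + 1 ≤ i := by exact_mod_cast h2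
    nlinarith [h1.2]

lemma sq_le_nq (y : R4) : y.1 ^ 2 ≤ nq y := le_add_of_nonneg_right (sq_nonneg _)

lemma Sg_strip {j : ℕ} (hj : j < n) {y : R4} (h : (sh (4 * j) y).1 ^ 2 < 25 / 4) :
    y ∈ Sg n ↔ sh (4 * j) y ∈ K := by
  have far : ∀ i, i ≠ j → 2 < nq (sh (4 * i) y) := fun i hi =>
    (far_of_ne hi h).trans_le (sq_le_nq _)
  rcases le_total 2 (nq (sh (4 * j) y)) with h2 | h2
  · rw [K_far h2, Pb_sh, Sg_far fun i _ => ?_]
    rcases eq_or_ne i j with rfl | hi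
    exacts [h2, (far i hi).le]
  · refine ⟨?_, fun h' => Or.inr ⟨j, hj, h2, h'⟩⟩
    rintro (h' | ⟨i, -, h3, h'⟩)
    · exact (K_far (h'.1 j hj)).2 ((Pb_sh _ _).2 h'.2)
    · rwa [← by_contra fun hi => (far i hi).not_ge h3]

lemma isClosed_Sg : IsClosed (Sg n) := by
  refine IsClosed.union (IsClosed.and ?_ (IsClosed.and (isClosed_eq ?_ ?_) (isClosed_eq ?_ ?_))) ?_
  · simp only [ofPred_forall]
    exact isClosed_iInter fun j => isClosed_iInter fun _ => isClosed_le (by fun_prop) (by fun_prop)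
  any_goals fun_prop
  have : {y : R4 | ∃ j < n, nq (sh (4 * j) y) ≤ 2 ∧ sh (4 * j) y ∈ K} =
      ⋃ j ∈ Iio n, {y | nq (sh (4 * j) y) ≤ 2} ∩ sh (4 * j) ⁻¹' K := by
    ext; simp only [mem_iUnion, exists_prop]; rfl
  rw [this]
  exact (finite_Iio n).isClosed_biUnion fun j _ =>
    (isClosed_le (by fun_prop) (by fun_prop)).inter (isClosed_K.preimage (sh_cont _))

lemma isCompact_Sg (r : ℝ) : IsCompact (Sg n ∩ {y | nq y ≤ r}) := by
  obtain ⟨R, hR, h1⟩ : ∃ R : ℝ, 1 ≤ R ∧ r ≤ R := ⟨_, le_max_left _ _, le_max_right _ _⟩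
  have hn : (0 : ℝ) ≤ n := n.cast_nonneg
  refine (isCompact_Icc (a := (-R, -R, -(2 + 8 * n * R + 16 * n ^ 2 + R), -(2 + 8 * n * R + R)))
    (b := (R, R, 2 + 8 * n * R + 16 * n ^ 2 + R, 2 + 8 * n * R + R))).of_isClosed_subset
    (isClosed_Sg.inter (isClosed_le (by fun_prop) (by fun_prop))) ?_
  rintro ⟨a, b, c, d⟩ ⟨hy, h⟩
  have h : a ^ 2 + b ^ 2 ≤ R := le_trans h h1
  have ha := abs_le_of_sq_le_sq' (by nlinarith : a ^ 2 ≤ R ^ 2) (by linarith)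
  have hb := abs_le_of_sq_le_sq' (by nlinarith : b ^ 2 ≤ R ^ 2) (by linarith)
  have p1 : 0 ≤ n * R := by positivity
  simp only [mem_Icc, Prod.mk_le_mk, ha, hb, true_and]
  rcases hy with ⟨-, h2, h3⟩ | ⟨j, hj, h2, h3, -⟩
  · simp only at h2 h3
    refine ⟨⟨?_, ?_⟩, ?_, ?_⟩ <;> nlinarith [sq_nonneg (a + b), sq_nonneg (a - b)]
  · have h4 := (gg_mono h2).trans_eq (gg_out le_rfl)
    have h5 := gg_pos (nq (sh (4 * j) (a, b, c, d)))
    generalize gg _ = G at *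
    simp only [sh] at h3
    have hc := abs_le_of_sq_le_sq' (by nlinarith : (c - 2 * (4 * j) * a + (4 * j) ^ 2) ^ 2 ≤ 2 ^ 2)
      (by norm_num)
    have hd := abs_le_of_sq_le_sq' (by nlinarith : (d - 2 * (4 * j) * b) ^ 2 ≤ 2 ^ 2) (by norm_num)
    have hj : (j : ℝ) ≤ n := by exact_mod_cast hj.le
    have hj0 : (0 : ℝ) ≤ j := j.cast_nonneg
    have p2 : j * R ≤ n * R := by gcongr
    have p3 : (j : ℝ) ^ 2 ≤ n ^ 2 := by gcongr
    refine ⟨⟨?_, ?_⟩, ?_, ?_⟩ <;> nlinarith [mul_le_mul_of_nonneg_left ha.1 hj0,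
      mul_le_mul_of_nonneg_left ha.2 hj0, mul_le_mul_of_nonneg_left hb.1 hj0,
      mul_le_mul_of_nonneg_left hb.2 hj0]

/-- A chart of the cross-cap moved to its place. -/
noncomputable def mv (C : Chart K) (hC : ∀ y ∈ C.O, y.1 ^ 2 < 25 / 4) {j : ℕ} (hj : j < n) :
    Chart (Sg n) where
  W := C.W
  O := sh (4 * j) ⁻¹' C.O
  ψ w := sh (-(4 * j)) (C.ψ w)
  ρ y := C.ρ (sh (4 * j) y)
  oW := C.oW
  oO := C.oO.preimage (sh_cont _)
  sψ := (sh_smooth _).comp_contDiffOn C.sψ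
  sρ := C.sρ.comp (sh_smooth _).contDiffOn fun _ hy => hy
  mem w hw := by
    obtain ⟨h1, h2, h3⟩ := C.mem w hw
    rw [Sg_strip hj (by rw [sh_sh]; exact hC _ h2), mem_preimage, sh_sh]
    exact ⟨h1, h2, h3⟩
  inv y hy hO := by
    obtain ⟨h1, h2⟩ := C.inv _ ((Sg_strip hj (hC _ hO)).1 hy) hO
    exact ⟨h1, by rw [h2, sh_sh']⟩

/-- The two charts of the cross-cap number `j`. -/
noncomputable def cA {j : ℕ} (hj : j < n) : Chart (Sg n) := mv kA (fun _ h => h.1) hj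
@[inherit_doc cA]
noncomputable def cB {j : ℕ} (hj : j < n) : Chart (Sg n) := mv kB (fun _ h => h.1) hj

/-- A chart on the parabola. -/
def cP (W : Set R2) (hW : IsOpen W)
    (h : ∀ y : R4, (y.1, y.2.1) ∈ W → ∀ j < n, 2 ≤ nq (sh (4 * j) y)) : Chart (Sg n) where
  W := W
  O := {y | (y.1, y.2.1) ∈ W}
  ψ := pb
  ρ y := (y.1, y.2.1)
  oW := hW
  oO := hW.preimage (by fun_prop)
  sψ := by unfold pb; fun_prop
  sρ := by fun_prop
  mem w hw := ⟨(Sg_far (h _ hw)).2 (Pb_pb w), hw, rfl⟩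
  inv y hy hO := ⟨hO, ((Sg_far (h y hO)).1 hy).eq⟩

lemma far_left {y : R4} (h : y.1 < -(3 / 2)) : ∀ j < n, 2 ≤ nq (sh (4 * j) y) := fun j _ => by
  have : (0 : ℝ) ≤ j := j.cast_nonneg
  refine le_trans ?_ (sq_le_nq _)
  simp only [sh]
  nlinarith

lemma far_right {y : R4} (h : 4 * n - 5 / 2 < y.1) : ∀ j < n, 2 ≤ nq (sh (4 * j) y) :=
  fun j hj => by
    have : (j : ℝ) + 1 ≤ n := by exact_mod_cast hj
    refine le_trans ?_ (sq_le_nq _)
    simp only [sh]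
    nlinarith

/-- The left half plane. -/
def cL (n : ℕ) : Chart (Sg n) := cP (Hp 1 0 (-(3 / 2))) (Hp_open _ _ _) fun y h =>
  far_left (by simpa [Hp] using h)

/-- The right half plane. -/
def cR (n : ℕ) : Chart (Sg n) := cP (Hp (-1) 0 (5 / 2 - 4 * n)) (Hp_open _ _ _) fun y h =>
  far_right (by simp only [Hp, mem_ofPred_eq] at h; linarith)

lemma strip_cover (m : ℕ) {y : R4} (h : y.1 < 4 * m - 3 / 2) :
    y.1 < -(3 / 2) ∨ ∃ j < m, (sh (4 * j) y).1 ^ 2 < 25 / 4 := by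
  induction m with
  | zero => exact Or.inl (by simpa using h)
  | succ m ih =>
    by_cases h1 : y.1 < 4 * m - 3 / 2
    · exact (ih h1).imp_right fun ⟨j, hj, h2⟩ => ⟨j, by omega, h2⟩
    · refine Or.inr ⟨m, by omega, ?_⟩
      push_cast at h
      simp only [sh]
      nlinarith

theorem Sg_saddle (a : R4) {y : R4} (hy : y ∈ Sg n) : ¬ Slm (Sg n) a y := by
  obtain ⟨p, h1, h2⟩ : ∃ p, sh p y ∈ K ∧ ∀ᶠ y' in 𝓝 y, sh p y' ∈ K → y' ∈ Sg n := by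
    have far : (∀ᶠ y' in 𝓝 y, ∀ j < n, 2 ≤ nq (sh (4 * j) y')) →
        ∃ p, sh p y ∈ K ∧ ∀ᶠ y' in 𝓝 y, sh p y' ∈ K → y' ∈ Sg n := fun h => by
      have c : ContinuousAt (fun y' => nq (sh (y.1 + 2) y')) y := by fun_prop
      have h2 : 2 < nq (sh (y.1 + 2) y) := lt_of_lt_of_le (by norm_num [sh]) (sq_le_nq _)
      refine ⟨y.1 + 2, (K_far h2.le).2 ((Pb_sh _ _).2 ((Sg_far h.self_of_nhds).1 hy)), ?_⟩
      filter_upwards [h, c.eventually (lt_mem_nhds h2)] with y' h3 h4 h5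
      exact (Sg_far h3).2 ((Pb_sh _ _).1 ((K_far h4.le).1 h5))
    by_cases h : y.1 < 4 * n - 3 / 2
    · rcases strip_cover n h with h | ⟨j, hj, h⟩
      · exact far ((continuousAt_fst.eventually (gt_mem_nhds h)).mono fun _ => far_left)
      · have c : ContinuousAt (fun y' => (sh (4 * j) y').1 ^ 2) y := by fun_prop
        exact ⟨_, (Sg_strip hj h).1 hy,
          (c.eventually (gt_mem_nhds h)).mono fun _ h => (Sg_strip hj h).2⟩
    · exact far ((continuousAt_fst.eventually (lt_mem_nhds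
        (show 4 * n - 5 / 2 < y.1 by linarith))).mono fun _ => far_right)
  refine fun h => K_saddle (a.1 + 2 * p * a.2.2.1, a.2.1 + 2 * p * a.2.2.2, a.2.2) h1 ?_
  have t := (sh_cont (-p)).tendsto (sh p y)
  rw [sh_sh'] at t
  filter_upwards [t.eventually h, t.eventually h2] with z h3 h4 h5 h6
  have := h3 (h4 (by rwa [sh_sh])) fun e => h6 (by rw [← e, sh_sh])
  simp only [ht, sh] at this ⊢
  linarith

end Pool.Agent.P.MP_06bfdf_gt.X
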