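import Pool.Agent.P.MP_06bfdf_gt.X.Surf

/-! The topology and the smooth structure of the surface with cross-caps. -/

open Set Topology Filter
open scoped Manifold ContDiff

namespace Pool.Agent.P.MP_06bfdf_gt.X

section gen

section top

variable {X : Type*} [TopologicalSpace X]

/-- Two paths with the same end points. -/
structure Lo (X : Type*) [TopologicalSpace X] where
  a : X
  b : X
  γ : Path a b
  δ : Path a b

/-- The cocycle takes the same value on the two paths. -/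
def Lo.ok (L : Lo X) (c : Cocycle X) : Prop := c.val L.γ = c.val L.δ

theorem card_hom [PathConnectedSpace X] (x₀ : X) {ι : Type} [Fintype ι] (L : ι → Lo X) (L' : Lo X)
    (hinj : ∀ c, (∀ j, (L j).ok c) → L'.ok c → c.Triv univ)
    (h₁ : ∀ j, ∃ c, ¬ (L j).ok c ∧ ∀ i, i ≠ j → (L i).ok c)
    (h₂ : ∃ c, ¬ L'.ok c ∧ ∀ j, (L j).ok c) :
    Nat.card (FundamentalGroup X x₀ →* Multiplicative (ZMod 2)) = 2 ^ (Fintype.card ι + 1) := by
  classical
  let g : Lo X → FundamentalGroup X x₀ := fun L =>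
    Path.Homotopic.Quotient.mk (loopOf x₀ (L.γ.trans L.δ.symm))
  let ev : (FundamentalGroup X x₀ →* Multiplicative (ZMod 2)) →*
      (ι → Multiplicative (ZMod 2)) × Multiplicative (ZMod 2) :=
    MonoidHom.mk' (fun φ => (fun j => φ (g (L j)), φ (g L'))) fun _ _ => rfl
  have z0 : ∀ p q : ZMod 2, Multiplicative.ofAdd (p + q) = 1 ↔ p = q := by decide
  have ok : ∀ (c : Cocycle X) (L : Lo X), c.hom x₀ (g L) = 1 ↔ L.ok c := fun c L => by
    simp only [g, hom_loop, z0, Lo.ok]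
  have two : ∀ u v : Multiplicative (ZMod 2), v ≠ 1 → u = 1 ∨ u = v := by decide
  have inj : Function.Injective ev := by
    rw [injective_iff_map_eq_one]
    intro φ hφ
    rw [← hom_cocycleOf x₀ φ] at hφ ⊢
    obtain ⟨h, hh⟩ := hinj _ (fun j => (ok _ _).1 (congrFun (congrArg Prod.fst hφ) j))
      ((ok _ _).1 (congrArg Prod.snd hφ))
    ext ⟨γ⟩
    change (cocycleOf x₀ φ).val γ = 0
    rw [hh _ _ γ fun _ => mem_univ _, z2_add_self]
  have surj : Function.Surjective ev := by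
    rintro ⟨y, z⟩
    obtain ⟨φ, hφ⟩ : y ∈ ((MonoidHom.fst _ _).comp ev).range := by
      rw [← Finset.univ_prod_mulSingle y]
      refine prod_mem fun j _ => ?_
      obtain ⟨c, h1, h2⟩ := h₁ j
      rcases two (y j) _ (mt (ok c _).1 h1) with e | e
      · rw [e, Pi.mulSingle_one]; exact one_mem _
      · refine ⟨c.hom x₀, funext fun i => ?_⟩
        rcases eq_or_ne i j with rfl | hi
        · rw [Pi.mulSingle_eq_same]; exact e.symm
        · rw [Pi.mulSingle_eq_of_ne hi]; exact (ok c _).2 (h2 i hi)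
    obtain ⟨c, h1, h2⟩ := h₂
    rcases two (z / φ (g L')) _ (mt (ok c _).1 h1) with e | e
    · exact ⟨φ, Prod.ext hφ (div_eq_one.1 e).symm⟩
    · refine ⟨c.hom x₀ * φ, Prod.ext (funext fun j => ?_) (div_eq_iff_eq_mul.1 e).symm⟩
      change c.hom x₀ (g (L j)) * φ (g (L j)) = _
      rw [(ok c _).2 (h2 j), one_mul]
      exact congrFun hφ j
  rw [Nat.card_eq_of_bijective ev ⟨inj, surj⟩]
  simp [pow_succ]

theorem exists_cocycle_three {U V W : Set X} (hU : IsOpen U) (hV : IsOpen V) (hW : IsOpen W)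
    (cov : ∀ x, x ∈ U ∨ x ∈ V ∨ x ∈ W) {f g k : X → ℝ} (hf : Continuous f) (hg : Continuous g)
    (hk : Continuous k) (f0 : ∀ x ∈ U, x ∈ V → f x ≠ 0) (g0 : ∀ x ∈ U, x ∈ W → g x ≠ 0)
    (k0 : ∀ x ∈ V, x ∈ W → k x ≠ 0) (h : ∀ x ∈ U, x ∈ V → x ∈ W → 0 < f x * g x * k x) :
    ∃ (c : Cocycle X) (u v w : X → ZMod 2), c.Cob u U ∧ c.Cob v V ∧ c.Cob w W ∧
      (∀ x ∈ U ∩ V, u x + v x = sg (f x)) ∧ ∀ x ∈ V ∩ W, v x + w x = sg (k x) := by
  obtain ⟨c, u, h1, h2⟩ := exists_cocycle_of_signs (![U, V, W] : Fin 3 → Set X)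
    (fun i => by fin_cases i <;> assumption)
    (fun x => (cov x).elim (fun h => ⟨0, h⟩) fun h => h.elim (fun h => ⟨1, h⟩) fun h => ⟨2, h⟩)
    ![![fun _ => 1, f, g], ![f, fun _ => 1, k], ![g, k, fun _ => 1]]
    (fun i j => Continuous.continuousOn (by
      fin_cases i <;> fin_cases j <;> first | exact continuous_const | assumption))
    (by
      rintro i j l x ⟨⟨hi, hj⟩, hl⟩
      fin_cases i <;> fin_cases j <;> fin_cases l <;> simp at hi hj hl ⊢ <;>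
        first
        | exact f0 x ‹_› ‹_›
        | exact g0 x ‹_› ‹_›
        | exact k0 x ‹_› ‹_›
        | linarith [h x ‹_› ‹_› ‹_›])
  exact ⟨c, u 0, u 1, u 2, h1 0, h1 1, h1 2, h2 0 1, h2 1 2⟩

/-- Two open pieces whose intersection has two components, told apart by the sign of `f`. -/
theorem exists_lo {U V W₁ W₂ : Set X} (oU : IsOpen U) (oV : IsOpen V) (pU : IsPathConnected U)
    (pV : IsPathConnected V) (h₁ : IsPathConnected W₁) (h₂ : IsPathConnected W₂)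
    (e : U ∩ V = W₁ ∪ W₂) {f : X → ℝ} (f₁ : ∀ x ∈ W₁, 0 < f x) (f₂ : ∀ x ∈ W₂, f x < 0) :
    IsPathConnected (U ∪ V) ∧ ∃ L : Lo X,
      (∀ c : Cocycle X, c.Triv U → c.Triv V → L.ok c → c.Triv (U ∪ V)) ∧
      (∀ c : Cocycle X, c.Triv (U ∪ V) → L.ok c) ∧
      ∀ (c : Cocycle X) (u v : X → ZMod 2), c.Cob u U → c.Cob v V →
        (∀ x ∈ U ∩ V, u x + v x = sg (f x)) → ¬ L.ok c := by
  obtain ⟨a, ha⟩ := h₁.nonempty
  obtain ⟨b, hb⟩ := h₂.nonempty
  have s₁ : W₁ ⊆ U ∩ V := e ▸ subset_union_left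
  have s₂ : W₂ ⊆ U ∩ V := e ▸ subset_union_right
  have j := pU.joinedIn a (s₁ ha).1 b (s₂ hb).1
  have j' := pV.joinedIn a (s₁ ha).2 b (s₂ hb).2
  exact ⟨pU.union pV ⟨a, s₁ ha⟩, ⟨a, b, j.somePath, j'.somePath⟩,
    fun c c1 c2 => c1.glue2 oU oV c2 h₁ h₂ s₁ s₂ e.le ha hb _ _ j.somePath_mem j'.somePath_mem,
    fun c hc => hc.val_eq _ _ (fun t => Or.inl (j.somePath_mem t))
      fun t => Or.inr (j'.somePath_mem t),
    fun c u v h1 h2 h3 => val_ne_of_signs h1 h2 (h3 _ (s₁ ha)) (h3 _ (s₂ hb)) (f₁ _ ha) (f₂ _ hb)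
      _ _ j.somePath_mem j'.somePath_mem⟩

end top

variable {E : Type} [NormedAddCommGroup E] [NormedSpace ℝ E] {S : Set E}

theorem package' {ι : Type} (C : ι → Chart S) (x₀ : S)
    (cov : ∀ x ∈ S, ∃ i, x ∈ (C i).O) (π : E →L[ℝ] R4)
    (imm : ∀ i, ∀ w ∈ (C i).W, ∃ r : R4 → R2, DifferentiableAt ℝ r (π ((C i).ψ w)) ∧
      ∀ᶠ w' in 𝓝 w, r (π ((C i).ψ w')) = w') :
    letI := charted C x₀ cov
    IsManifold (𝓡 2) ∞ S ∧
    ContMDiff (𝓡 2) 𝓘(ℝ, EuclideanSpace ℝ (Fin 4)) ∞ (fun x : S => c4 (π x)) ∧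
    ∀ x : S, Function.Injective
      (mfderiv (𝓡 2) 𝓘(ℝ, EuclideanSpace ℝ (Fin 4)) (fun x : S => c4 (π x)) x) := by
  let _ := charted C x₀ cov
  have hman : IsManifold (𝓡 2) ∞ S := by
    apply isManifold_of_contDiffOn
    rintro _ _ ⟨i, rfl⟩ ⟨j, rfl⟩
    simp only [modelWithCornersSelf_coe, modelWithCornersSelf_coe_symm, Function.id_comp,
      Function.comp_id, preimage_id_eq, id, range_id, inter_univ]
    have hsub : ∀ w ∈ (((C i).e' x₀).symm ≫ₕ (C j).e' x₀).source,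
        c2 w ∈ (C i).W ∧ (C i).ψ (c2 w) ∈ (C j).O := by
      intro w hw
      have h1 : c2 w ∈ (C i).W := hw.1
      have h2 : ((C i).par x₀ (c2 w) : E) ∈ (C j).O := hw.2
      rw [(C i).par_val x₀ h1] at h2
      exact ⟨h1, h2⟩
    have : ContDiffOn ℝ ∞ (fun w => c2.symm ((C j).ρ ((C i).ψ (c2 w))))
        (((C i).e' x₀).symm ≫ₕ (C j).e' x₀).source := by
      refine c2.symm.contDiff.comp_contDiffOn ((C j).sρ.comp ((C i).sψ.comp
        c2.contDiff.contDiffOn fun w hw => (hsub w hw).1) fun w hw => (hsub w hw).2)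
    refine this.congr fun w hw => ?_
    show c2.symm ((C j).ρ ((C i).par x₀ (c2 w))) = _
    rw [(C i).par_val x₀ (hsub w hw).1]
  let f : S → EuclideanSpace ℝ (Fin 4) := fun x => c4 (π x)
  have fcont : Continuous f := c4.continuous.comp (π.continuous.comp continuous_subtype_val)
  have key : ∀ x : S, ∃ i, ∃ w ∈ (C i).W,
      extChartAt (𝓡 2) x x = c2.symm w ∧
      writtenInExtChartAt (𝓡 2) 𝓘(ℝ, EuclideanSpace ℝ (Fin 4)) x f =ᶠ[𝓝 (c2.symm w)]
        fun y => c4 (π ((C i).ψ (c2 y))) := by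
    intro x
    have hx : (x : E) ∈ (C (cov x x.2).choose).O := (cov x x.2).choose_spec
    refine ⟨(cov x x.2).choose, (C _).ρ x, ((C _).inv x x.2 hx).1, rfl, ?_⟩
    have hW : c2 ⁻¹' (C (cov x x.2).choose).W ∈ 𝓝 (c2.symm ((C (cov x x.2).choose).ρ x)) :=
      ((C _).oW.preimage c2.continuous).mem_nhds (by simpa using ((C _).inv x x.2 hx).1)
    filter_upwards [hW] with y hy
    show c4 (π ((C (cov x x.2).choose).par x₀ (c2 y))) = _
    rw [(C _).par_val x₀ hy]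
  have sm : ∀ i, ∀ w ∈ (C i).W, ContDiffAt ℝ ∞ (fun y => c4 (π ((C i).ψ (c2 y)))) (c2.symm w) := by
    intro i w hw
    have h1 : ContDiffAt ℝ ∞ (C i).ψ (c2 (c2.symm w)) := by
      rw [c2.apply_symm_apply]; exact (C i).sψ.contDiffAt ((C i).oW.mem_nhds hw)
    exact c4.contDiff.contDiffAt.comp _ (π.contDiff.contDiffAt.comp _
      (h1.comp _ c2.contDiff.contDiffAt))
  have fsm : ContMDiff (𝓡 2) 𝓘(ℝ, EuclideanSpace ℝ (Fin 4)) ∞ f := by
    intro x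
    rw [contMDiffAt_iff]
    refine ⟨fcont.continuousAt, ?_⟩
    obtain ⟨i, w, hw, h1, h2⟩ := key x
    rw [h1]
    exact ((sm i w hw).congr_of_eventuallyEq h2).contDiffWithinAt
  refine ⟨hman, fsm, ?_⟩
  · intro x
    obtain ⟨i, w, hw, h1, h2⟩ := key x
    rw [((fsm x).mdifferentiableAt (by simp)).mfderiv, h1]
    simp only [modelWithCornersSelf_coe, range_id, fderivWithin_univ]
    rw [h2.fderiv_eq]
    obtain ⟨r, hr, hev⟩ := imm i w hw
    have hg := (sm i w hw).differentiableAt (by simp)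
    have hr' : DifferentiableAt ℝ (fun y => c2.symm (r (d4 y)))
        ((fun y => c4 (π ((C i).ψ (c2 y)))) (c2.symm w)) := by
      refine c2.symm.differentiableAt.comp _ (DifferentiableAt.comp _ ?_ d4.differentiableAt)
      simpa [d4_c4] using hr
    have hc := HasFDerivAt.comp (f := fun y => c4 (π ((C i).ψ (c2 y)))) (c2.symm w)
      hr'.hasFDerivAt hg.hasFDerivAt
    have hid : ((fun y => c2.symm (r (d4 y))) ∘ fun y => c4 (π ((C i).ψ (c2 y)))) =ᶠ[𝓝 (c2.symm w)]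
        id := by
      have ht : Tendsto c2 (𝓝 (c2.symm w)) (𝓝 w) := by
        simpa using c2.continuous.tendsto (c2.symm w)
      filter_upwards [ht.eventually hev] with y hy
      simp [d4_c4, hy]
    have huniq := hc.unique ((hasFDerivAt_id _).congr_of_eventuallyEq hid)
    exact Function.LeftInverse.injective
      (g := fderiv ℝ (fun y => c2.symm (r (d4 y))) (c4 (π ((C i).ψ (c2 (c2.symm w))))))
      fun a => DFunLike.congr_fun huniq a

end gen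

lemma kA_of_ne {y : R4} (hy : y ∈ K) (h : y.1 ^ 2 < 25 / 4) (h0 : y.1 ≠ 0) : y ∈ kA.O := by
  refine ⟨h, ?_⟩
  have h1 := hy.2.1
  have h2 := gg_pos (nq y)
  have h3 : 0 < y.1 ^ 2 := by positivity
  have h4 : nq y = y.1 ^ 2 + y.2.1 ^ 2 := rfl
  refine (mul_pos_iff_of_pos_right (show 0 < nq y by rw [h4]; positivity)).1 ?_
  nlinarith [mul_pos h2 h3]

lemma kA_ne {y : R4} (hy : y ∈ K) (h : y ∈ kA.O) (h0 : y.1 = 0) : y.2.1 = 0 := by
  have := congrArg (fun z : R4 => z.2.1) (K_A hy h.2)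
  simpa [cap, h0] using this.symm

lemma kB_ne {y : R4} (hy : y ∈ K) (h : y ∈ kB.O) (h0 : y.2.1 = 0) : y.1 = 0 := by
  have := congrArg (fun z : R4 => z.1) (K_B hy h.2.1)
  simpa [cap, h0] using this.symm

lemma K_sign {y : R4} (hy : y ∈ K) (h1 : y.1 ≠ 0) (h2 : y.2.1 ≠ 0) :
    0 < y.1 * y.2.1 * y.2.2.2 := by
  have h3 : 0 < gg (nq y) * (y.1 * y.2.1) ^ 2 := by have := gg_pos (nq y); positivity
  refine (mul_pos_iff_of_pos_right (show 0 < nq y by unfold nq; positivity)).1 ?_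
  rw [mul_assoc, hy.2.2]
  linarith

namespace Cr

variable {n : ℕ} (P : Cr n) (x₀ : P.S)

/-- The finite part. -/
def Fn : Set P.S := {x | 0 < x.1.2.1}
/-- The part to the left of a vertical line. -/
def Hf (m : ℕ) : Set P.S := {x | 0 < x.1.2.1 ∧ (dn x.1).1 < 4 * m - 3 / 2}
/-- The first piece of a strip. -/
def pA {j : ℕ} (hj : j < n) : Set P.S := (P.up (cA hj)).pc x₀ (St (25 / 4))
/-- The second piece of a strip. -/
def pB {j : ℕ} (hj : j < n) : Set P.S := (P.up (cB hj)).pc x₀ (St 4)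
/-- First neighbourhood at infinity. -/
def N1 : Set P.S := P.n1.pc x₀ P.n1.W
/-- Second neighbourhood at infinity. -/
def N2 : Set P.S := P.n2.pc x₀ P.n2.W

lemma mem_pc_W {E : Type} [NormedAddCommGroup E] [NormedSpace ℝ E] {S : Set E} (C : Chart S)
    (x₀ : S) {x : S} : x ∈ C.pc x₀ C.W ↔ x.1 ∈ C.O :=
  ⟨fun h => h.1, fun h => ⟨h, (C.inv x x.2 h).1⟩⟩

variable {j : ℕ} (hj : j < n) {x : P.S}

lemma mem_pA : x ∈ P.pA x₀ hj ↔ 0 < x.1.2.1 ∧ sh (4 * j) (dn x.1) ∈ kA.O :=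
  mem_pc_W (P.up (cA hj)) x₀

lemma mem_pB : x ∈ P.pB x₀ hj ↔ 0 < x.1.2.1 ∧ sh (4 * j) (dn x.1) ∈ kB.O :=
  mem_pc_W (P.up (cB hj)) x₀

include hj in
lemma memK (h0 : 0 < x.1.2.1) (h : (sh (4 * j) (dn x.1)).1 ^ 2 < 25 / 4) :
    sh (4 * j) (dn x.1) ∈ K := (Sg_strip hj h).1 (P.S_fin x.2 h0).1

lemma mem_AB : x ∈ P.pA x₀ hj ∪ P.pB x₀ hj ↔
    0 < x.1.2.1 ∧ (sh (4 * j) (dn x.1)).1 ^ 2 < 25 / 4 := by
  rw [mem_union, mem_pA, mem_pB, ← and_or_left]
  exact and_congr_right fun h0 =>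
    ⟨fun h => h.elim (·.1) (·.1), fun h => k_cover (P.memK hj h0 h) h⟩

lemma pA_open : IsOpen (P.pA x₀ hj) := Chart.pc_open _ _ (St_open _)
lemma pB_open : IsOpen (P.pB x₀ hj) := Chart.pc_open _ _ (St_open _)
lemma Fn_open : IsOpen P.Fn := isOpen_lt (by fun_prop) (by fun_prop)
lemma N1_open : IsOpen (P.N1 x₀) := Chart.pc_open _ _ P.n1.oW
lemma N2_open : IsOpen (P.N2 x₀) := Chart.pc_open _ _ P.n2.oW

/-- Gluing along the strips. -/
lemma Fn_ind (Φ : Set P.S → Prop)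
    (gl : ∀ U V, IsOpen U → IsOpen V → Φ U → Φ V → IsPathConnected (U ∩ V) → Φ (U ∪ V))
    (cv : ∀ (C : Chart P.S), Convex ℝ C.W → C.W.Nonempty → Φ (C.pc x₀ C.W))
    (hT : ∀ j (hj : j < n), Φ (P.pA x₀ hj ∪ P.pB x₀ hj)) : Φ P.Fn := by
  have ind : ∀ m ≤ n, IsOpen (P.Hf m) ∧ Φ (P.Hf m) := by
    intro m
    induction m with
    | zero =>
      have e : P.Hf 0 = (P.up (cL n)).pc x₀ (P.up (cL n)).W := by
        ext x; rw [mem_pc_W]; simp [Hf, up, cL, cP, Hp]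
      rw [e]
      exact fun _ => ⟨Chart.pc_open _ _ (Chart.oW _),
        cv _ (Hp_convex _ _ _) ⟨(-2, 0), by norm_num [up, cL, cP, Hp]⟩⟩
    | succ m ih =>
      intro hm
      obtain ⟨h1, h2⟩ := ih (by omega)
      have e : P.Hf (m + 1) = P.Hf m ∪ (P.pA x₀ hm ∪ P.pB x₀ hm) := by
        ext x
        rw [mem_union, mem_AB]
        simp only [Hf, mem_ofPred_eq, ← and_or_left, sh]
        push_cast
        refine and_congr_right fun _ => ⟨fun h => ?_, fun h => h.elim (fun h => by linarith)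
          fun h => by nlinarith⟩
        by_contra! h3
        nlinarith [h3.1, h3.2]
      have o := (P.pA_open x₀ hm).union (P.pB_open x₀ hm)
      rw [e]
      refine ⟨h1.union o, gl _ _ h1 o h2 (hT m hm) ?_⟩
      convert (P.up (cA hm)).pc_pc x₀ inter_subset_left (((St_convex (25 / 4)).inter
        (Hp_convex 1 0 (-(3 / 2)))).isPathConnected ⟨(-2, 0), by norm_num [St, Hp]⟩) using 1
      ext x
      rw [mem_inter_iff, mem_AB]
      constructor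
      · rintro ⟨⟨h0, h3⟩, -, h4⟩
        have h5 : (sh (4 * m) (dn x.1)).1 < -(3 / 2) := by simp only [sh]; linarith
        exact ⟨⟨h0, kA_of_ne (P.memK hm h0 h4) h4 (by linarith)⟩, h4,
          by simpa [Hp, up, cA, mv, kA] using h5⟩
      · rintro ⟨⟨h0, -⟩, h3, h4⟩
        have h5 : (sh (4 * m) (dn x.1)).1 < -(3 / 2) := by simpa [Hp, up, cA, mv, kA] using h4
        exact ⟨⟨h0, by simp only [sh] at h5; linarith⟩, h0, h3⟩
  obtain ⟨h1, h2⟩ := ind n le_rfl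
  have e : ∀ x, x ∈ (P.up (cR n)).pc x₀ (P.up (cR n)).W ↔
      0 < x.1.2.1 ∧ 4 * n - 5 / 2 < (dn x.1).1 := fun x => by
    rw [mem_pc_W]
    simp only [up, cR, cP, Hp, mem_inter_iff, mem_ofPred_eq, mem_preimage]
    exact and_congr_right fun _ => ⟨fun h => by linarith, fun h => by linarith⟩
  convert gl _ _ h1 (Chart.pc_open _ _ (Chart.oW _)) h2 (cv (P.up (cR n)) (Hp_convex _ _ _)
    ⟨(4 * n, 0), by norm_num [up, cR, cP, Hp]⟩) ?_ using 1
  · ext x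
    rw [mem_union, e]
    simp only [Fn, Hf, mem_ofPred_eq, ← and_or_left]
    exact (and_iff_left (by by_contra! h; linarith [h.1, h.2])).symm
  · convert (P.up (cR n)).pc_pc x₀ inter_subset_left (((Hp_convex (-1) 0 (5 / 2 - 4 * n)).inter
      (Hp_convex 1 0 (4 * n - 3 / 2))).isPathConnected ⟨(4 * n - 2, 0), by
        simp only [Hp, mem_inter_iff, mem_ofPred_eq]; constructor <;> linarith⟩) using 1
    ext x
    constructor
    · rintro ⟨h3, h4⟩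
      exact ⟨h4.1, h4.2, by simpa [Hp, up, cR, cP] using h3.2⟩
    · rintro ⟨h3, h4, h5⟩
      exact ⟨⟨h3.1, by simpa [Hp, up, cR, cP] using h5⟩, h3, h4⟩

lemma sh_dn (p : ℝ) {x : E7} (h : 0 < x.2.1) :
    x.1.1 - p * x.2.1 = (sh p (dn x)).1 * x.2.1 ∧ x.1.2.1 = (sh p (dn x)).2.1 * x.2.1 ∧
      x.1.2.2.2 - 2 * p * x.1.2.1 = (sh p (dn x)).2.2.2 * x.2.1 := by
  simp only [sh, dn]
  refine ⟨?_, ?_, ?_⟩ <;> field_simp

lemma lo_cap : IsPathConnected (P.pA x₀ hj ∪ P.pB x₀ hj) ∧ ∃ L : Lo P.S,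
    (∀ c : Cocycle P.S, L.ok c → c.Triv (P.pA x₀ hj ∪ P.pB x₀ hj)) ∧
    (∀ c : Cocycle P.S, c.Triv (P.pA x₀ hj ∪ P.pB x₀ hj) → L.ok c) ∧
    ∃ c : Cocycle P.S, ¬ L.ok c ∧
      ∀ i (hi : i < n), i ≠ j → c.Triv (P.pA x₀ hi ∪ P.pB x₀ hi) := by
  have sgn : ∀ (a : ℝ) (x : P.S), x ∈ (P.up (cB hj)).pc x₀ (St 4 ∩ Hp a 0 0) ↔
      x ∈ P.pB x₀ hj ∧ a * (sh (4 * j) (dn x.1)).2.2.2 < 0 := fun a x => by
    have e : x ∈ (P.up (cB hj)).pc x₀ (St 4 ∩ Hp a 0 0) ↔ x ∈ P.pB x₀ hj ∧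
        a * (kB.ρ (sh (4 * j) (dn x.1))).1 + 0 * (kB.ρ (sh (4 * j) (dn x.1))).2 < 0 :=
      and_assoc.symm
    rw [e]
    refine and_congr_right fun h => ?_
    simp only [kB, zero_mul, add_zero]
    rw [← mul_div_assoc, div_lt_iff₀ h.1.2.2.1, zero_mul, mul_left_comm, ← neg_pos, ← mul_neg,
      mul_pos_iff_of_pos_left (by positivity), neg_pos]
  obtain ⟨h1, L, h2, h3, h4⟩ := exists_lo (P.pA_open x₀ hj) (P.pB_open x₀ hj)
    (Chart.pc_pc _ _ Subset.rfl ((St_convex _).isPathConnected ⟨0, by norm_num [St]⟩))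
    (Chart.pc_pc _ _ Subset.rfl ((St_convex _).isPathConnected ⟨0, by norm_num [St]⟩))
    ((P.up (cB hj)).pc_pc x₀ (W := St 4 ∩ Hp (-1) 0 0) inter_subset_left (((St_convex 4).inter
      (Hp_convex (-1) 0 0)).isPathConnected ⟨(1, 0), by norm_num [St, Hp]⟩))
    ((P.up (cB hj)).pc_pc x₀ (W := St 4 ∩ Hp 1 0 0) inter_subset_left (((St_convex 4).inter
      (Hp_convex 1 0 0)).isPathConnected ⟨(-1, 0), by norm_num [St, Hp]⟩))
    (by
      ext x
      rw [mem_union, sgn, sgn, ← and_or_left, mem_inter_iff, and_comm]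
      refine and_congr_right fun h => ?_
      rw [mem_pA, and_iff_right (show 0 < x.1.2.1 from h.1.1), kB_A (P.memK hj h.1.1 h.1.2.1) h.1.2, ne_iff_lt_or_gt,
        or_comm]
      simp)
    (f := fun x : P.S => x.1.1.2.2.2 - 2 * (4 * j) * x.1.1.2.1)
    (fun x hx => by
      obtain ⟨a, b⟩ := (sgn _ _).1 hx
      rw [(sh_dn _ a.1.1).2.2]
      exact mul_pos (by linarith) a.1.1)
    (fun x hx => by
      obtain ⟨a, b⟩ := (sgn _ _).1 hx
      rw [(sh_dn _ a.1.1).2.2]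
      exact mul_neg_of_neg_of_pos (by linarith) a.1.1)
  refine ⟨h1, L, fun c => h2 c (Chart.pc_triv _ _ c Subset.rfl (St_convex _))
    (Chart.pc_triv _ _ c Subset.rfl (St_convex _)), h3, ?_⟩
  let E : Set P.S := {x | x.1.1.1 - 4 * j * x.1.2.1 = 0 ∧ x.1.1.2.1 = 0 ∧
    x.1.2.2.1 + x.1.2.2.2 ≤ (4 * j) ^ 2 * x.1.2.1}
  have cE : IsClosed E := by
    refine IsClosed.and (isClosed_eq ?_ ?_) (IsClosed.and (isClosed_eq ?_ ?_) (isClosed_le ?_ ?_)) <;>
      fun_prop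
  have mE : ∀ x : P.S, 0 < x.1.2.1 → (sh (4 * j) (dn x.1)).1 = 0 →
      (sh (4 * j) (dn x.1)).2.1 = 0 → x ∈ E := fun x h0 a b => by
    refine ⟨by rw [(sh_dn _ h0).1, a, zero_mul], by rw [(sh_dn (4 * j) h0).2.1, b, zero_mul], ?_⟩
    rw [← (P.S_fin x.2 h0).2]
    generalize dn x.1 = y at *
    simp only [sh, sub_eq_zero] at a b
    simp only [lf, a, b, mul_one_div, ← add_div]
    simp
  have fA : ∀ x ∈ Eᶜ, x ∈ P.pA x₀ hj → (sh (4 * j) (dn x.1)).1 ≠ 0 := fun x hx h a =>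
    hx (mE x h.1.1 a (kA_ne (P.memK hj h.1.1 h.1.2.1) h.1.2 a))
  have fB : ∀ x ∈ Eᶜ, x ∈ P.pB x₀ hj → (sh (4 * j) (dn x.1)).2.1 ≠ 0 := fun x hx h a =>
    hx (mE x h.1.1 (kB_ne (P.memK hj h.1.1 h.1.2.1) h.1.2 a) a)
  obtain ⟨c, u, v, w, c1, c2, c3, -, c4⟩ := exists_cocycle_three cE.isOpen_compl (P.pA_open x₀ hj)
    (P.pB_open x₀ hj)
    (fun x => or_iff_not_imp_left.2 fun hx => by
      obtain ⟨a, -, b⟩ := not_not.1 hx
      obtain ⟨y, -, -, e⟩ := P.S_near x.2 b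
      have h0 : 0 < x.1.2.1 := e ▸ P.lf_pos y
      rw [(sh_dn _ h0).1, mul_eq_zero, or_iff_left h0.ne'] at a
      exact (P.mem_AB x₀ hj).2 ⟨h0, by rw [a]; norm_num⟩)
    (f := fun x : P.S => x.1.1.1 - 4 * j * x.1.2.1) (g := fun x : P.S => x.1.1.2.1)
    (k := fun x : P.S => x.1.1.2.2.2 - 2 * (4 * j) * x.1.1.2.1)
    (by fun_prop) (by fun_prop) (by fun_prop)
    (fun x hx h => by rw [(sh_dn _ h.1.1).1]; exact mul_ne_zero (fA x hx h) (ne_of_gt h.1.1))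
    (fun x hx h => by
      rw [(sh_dn (4 * j) h.1.1).2.1]; exact mul_ne_zero (fB x hx h) (ne_of_gt h.1.1))
    (fun x hx h => by
      rw [(sh_dn _ h.1.1).2.2]
      exact mul_ne_zero ((kB_A (P.memK hj h.1.1 h.1.2.1) h.1.2).1 hx.1.2) (ne_of_gt h.1.1))
    (fun x hx h h' => by
      have h0 : 0 < x.1.2.1 := h.1.1
      have := mul_pos (K_sign (P.memK hj h0 h.1.2.1) (fA x hx h) (fB x hx h')) (pow_pos h0 3)
      rw [(sh_dn _ h0).2.2, (sh_dn _ h0).1, (sh_dn (4 * j) h0).2.1]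
      linarith)
  refine ⟨c, h4 c v w c2 c3 c4, fun i hi hij => ⟨u, c1.mono fun x hx hE => ?_⟩⟩
  obtain ⟨h0, h5⟩ := (P.mem_AB x₀ hi).1 hx
  have h6 := far_of_ne hij.symm h5
  have h7 := hE.1
  rw [(sh_dn _ h0).1, mul_eq_zero, or_iff_left h0.ne'] at h7
  rw [h7] at h6
  norm_num at h6

lemma J_of {x : P.S} (h : x ∈ P.N1 x₀ ∨ x ∈ P.N2 x₀) :
    ∃ s : R3, 0 < s.1 ^ 2 + s.2.1 ^ 2 ∧ x.1 = P.J s :=
  have h' := h.imp (·.1.1) (·.1.1)
  P.M_J_of (P.far_of x.2 h') h'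

lemma N1_Fn {x : P.S} {w : R2} (e : x.1 = P.J (1, w.1, w.2)) : x ∈ P.Fn ↔ w.2 ≠ 0 := by
  have hD := P.D_pos (s := (1, w.1, w.2)) (by positivity)
  simp only [Fn, mem_ofPred_eq, e, Par.J, lt_div_iff₀ hD, zero_mul, sq_pos_iff]

lemma N2_inter : IsPathConnected ((P.Fn ∪ P.N1 x₀) ∩ P.N2 x₀) := by
  have key : ∀ x : P.S, ∀ w : R2, x.1 = P.J (w.1, 1, w.2) → (x ∈ P.Fn ∪ P.N1 x₀ ↔
      w ∈ Hp 0 (-1) 0 ∪ Hp (-1) 0 0 ∪ Hp 0 1 0 ∪ Hp 1 0 0) := by
    intro x w e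
    have hD := P.D_pos (s := (w.1, 1, w.2)) (by positivity)
    have h1 : x ∈ P.Fn ↔ w.2 ≠ 0 := by
      simp only [Fn, mem_ofPred_eq, e, Par.J, lt_div_iff₀ hD, zero_mul, sq_pos_iff]
    have h2 : w ∈ Hp 0 (-1) 0 ∪ Hp (-1) 0 0 ∪ Hp 0 1 0 ∪ Hp 1 0 0 ↔ w.2 ≠ 0 ∨ w.1 ≠ 0 := by
      simp only [Hp, mem_union, mem_ofPred_eq, ne_iff_lt_or_gt, zero_mul, one_mul, neg_mul,
        zero_add, add_zero, neg_lt_zero]
      tauto
    rw [mem_union, h1, h2]
    refine or_congr_right' fun h0 => ?_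
    rw [not_not] at h0
    constructor
    · intro h h3
      have : 0 < x.1.2.2.1 := h.1.2
      simp [e, Par.J, h3] at this
    · intro h3
      have : 0 < w.1 ^ 2 / P.D (w.1, 1, w.2) := by positivity
      exact (mem_pc_W P.n1 x₀).2
        ⟨by simpa [e, Par.J, h0] using this, by simpa [e, Par.J] using this⟩
  convert P.n2.pc_pc x₀ inter_subset_left P.pc_punct using 1
  ext x
  constructor
  · rintro ⟨h1, h2⟩
    obtain ⟨w, hw, -, e⟩ := Chart.pc_param _ _ h2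
    exact Chart.mem_pc_of _ _ hw ⟨hw, (key x w e).1 h1⟩ e
  · intro h
    obtain ⟨w, hw, hw', e⟩ := Chart.pc_param _ _ h
    exact ⟨(key x w e).2 hw'.2, Chart.mem_pc_of _ _ hw hw e⟩

lemma all_eq : P.Fn ∪ P.N1 x₀ ∪ P.N2 x₀ = univ :=
  eq_univ_of_forall fun x => (P.inf_cov x.2).elim (fun h => Or.inl (Or.inl h)) fun h =>
    h.elim (fun h => Or.inl (Or.inr ((mem_pc_W _ _).2 h))) fun h => Or.inr ((mem_pc_W _ _).2 h)

lemma lo_inf (pF : IsPathConnected P.Fn) : IsPathConnected (univ : Set P.S) ∧ ∃ L : Lo P.S,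
    (∀ c : Cocycle P.S, c.Triv P.Fn → L.ok c → c.Triv univ) ∧
    (∀ c : Cocycle P.S, c.Triv (P.Fn ∪ P.N1 x₀) → L.ok c) ∧
    ∃ c : Cocycle P.S, ¬ L.ok c ∧ c.Triv P.Fn := by
  have hb : 0 < P.b + 2 := by linarith [P.b_ge]
  have t1 : (P.b + 2) * (P.b + 2)⁻¹ ^ 2 < 1 := by
    rw [sq, ← mul_assoc, mul_inv_cancel₀ hb.ne', one_mul]
    exact inv_lt_one_of_one_lt₀ (by linarith [P.b_ge])
  have pN : ∀ C : Chart P.S, C.W = {w : R2 | (P.b + 2) * w.2 ^ 2 < 1} →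
      IsPathConnected (C.pc x₀ C.W) ∧ ∀ c : Cocycle P.S, c.Triv (C.pc x₀ C.W) := fun C e =>
    ⟨C.pc_pc _ Subset.rfl (e ▸ P.strip_convex.isPathConnected ⟨(0, 0), by simp⟩),
      fun c => C.pc_triv _ c Subset.rfl (e ▸ P.strip_convex)⟩
  have sgn : ∀ (a : ℝ) (x : P.S), x ∈ P.n1.pc x₀ (P.n1.W ∩ Hp 0 a 0) ↔
      x ∈ P.N1 x₀ ∧ a * x.1.1.1 < 0 := fun a x => by
    have e : x ∈ P.n1.pc x₀ (P.n1.W ∩ Hp 0 a 0) ↔ x ∈ P.N1 x₀ ∧
        0 * (x.1.1.2.2.2 / (2 * x.1.2.2.1)) + a * (x.1.1.1 / x.1.2.2.1) < 0 := and_assoc.symm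
    rw [e]
    refine and_congr_right fun h => ?_
    rw [zero_mul, zero_add, ← mul_div_assoc, div_lt_iff₀ h.1.2, zero_mul]
  have f0 : ∀ x ∈ P.N1 x₀, x ∈ P.Fn ↔ x.1.1.1 ≠ 0 := fun x h => by
    obtain ⟨w, -, -, e⟩ := Chart.pc_param _ _ h
    have hD := P.D_pos (s := (1, w.1, w.2)) (by positivity)
    rw [P.N1_Fn e, show x.1 = P.J (1, w.1, w.2) from e]
    simp [Par.J, hD.ne']
  obtain ⟨h1, L, h2, h3, h4⟩ := exists_lo P.Fn_open (P.N1_open x₀) pF (pN P.n1 rfl).1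
    (P.n1.pc_pc x₀ (W := P.n1.W ∩ Hp 0 (-1) 0) inter_subset_left
      ((P.strip_convex.inter (Hp_convex 0 (-1) 0)).isPathConnected
        ⟨(0, (P.b + 2)⁻¹), t1, by simpa [Hp] using hb⟩))
    (P.n1.pc_pc x₀ (W := P.n1.W ∩ Hp 0 1 0) inter_subset_left
      ((P.strip_convex.inter (Hp_convex 0 1 0)).isPathConnected
        ⟨(0, -(P.b + 2)⁻¹), by simpa using t1, by simpa [Hp] using hb⟩))
    (by
      ext x
      rw [mem_union, sgn, sgn, ← and_or_left, mem_inter_iff, and_comm]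
      refine and_congr_right fun h => ?_
      rw [f0 x h, ne_iff_lt_or_gt, or_comm]
      simp)
    (f := fun x : P.S => x.1.1.1) (fun x hx => by linarith [((sgn _ _).1 hx).2])
    (fun x hx => by linarith [((sgn _ _).1 hx).2])
  have e := P.all_eq x₀
  obtain ⟨c, u, v, w, c1, c2, -, c4, -⟩ := exists_cocycle_three P.Fn_open (P.N1_open x₀)
    (P.N2_open x₀) (fun x => by simpa only [mem_union, or_assoc] using e.ge (mem_univ x))
    (f := fun x : P.S => x.1.1.1) (g := fun x : P.S => x.1.1.2.1)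
    (k := fun x : P.S => x.1.1.2.2.2) (by fun_prop) (by fun_prop) (by fun_prop)
    (fun x hx h => (f0 x h).1 hx)
    (fun x hx h => by
      obtain ⟨s, hs, e⟩ := P.J_of x₀ (Or.inr h)
      have a : 0 < x.1.2.1 := hx
      have b : 0 < x.1.2.2.2 := h.1.2
      have hD := P.D_pos hs
      simp only [e, Par.J, div_pos_iff_of_pos_right hD, sq_pos_iff] at a b ⊢
      positivity)
    (fun x hx h => by
      obtain ⟨s, hs, e⟩ := P.J_of x₀ (Or.inr h)
      have a : 0 < x.1.2.2.1 := hx.1.2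
      have b : 0 < x.1.2.2.2 := h.1.2
      have hD := P.D_pos hs
      simp only [e, Par.J, div_pos_iff_of_pos_right hD, sq_pos_iff] at a b ⊢
      positivity)
    (fun x hx h h' => by
      obtain ⟨s, hs, e⟩ := P.J_of x₀ (Or.inl h)
      have a : 0 < x.1.2.1 := hx
      have b : 0 < x.1.2.2.1 := h.1.2
      have d : 0 < x.1.2.2.2 := h'.1.2
      have hD := P.D_pos hs
      simp only [e, Par.J, div_pos_iff_of_pos_right hD, sq_pos_iff] at a b d ⊢
      rw [show s.1 * s.2.2 / P.D s * (s.2.1 * s.2.2 / P.D s) * (2 * s.1 * s.2.1 / P.D s) =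
        2 * (s.1 * s.2.1 * s.2.2) ^ 2 / P.D s ^ 3 by field_simp]
      positivity)
  refine ⟨e ▸ h1.union (pN P.n2 rfl).1 (P.N2_inter x₀).nonempty, L, fun c a b => ?_, h3,
    c, h4 c u v c1 c2 c4, u, c1⟩
  exact e ▸ (h2 c a ((pN P.n1 rfl).2 c) b).glue1 (P.Fn_open.union (P.N1_open x₀)) (P.N2_open x₀)
    ((pN P.n2 rfl).2 c) (P.N2_inter x₀)

theorem count : ∃ _ : PathConnectedSpace P.S,
    Nat.card (FundamentalGroup P.S x₀ →* Multiplicative (ZMod 2)) = 2 ^ (n + 1) := by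
  choose pT L l1 l2 l3 using fun j : Fin n => P.lo_cap x₀ j.2
  obtain ⟨pU, L', m1, -, c, m2, m3⟩ := P.lo_inf x₀ (P.Fn_ind x₀ IsPathConnected
    (fun U V _ _ a b h => a.union b h.nonempty)
    (fun C a b => C.pc_pc _ Subset.rfl (a.isPathConnected b)) fun j hj => pT ⟨j, hj⟩)
  have inst : PathConnectedSpace P.S := pathConnectedSpace_iff_univ.2 pU
  refine ⟨inst, (card_hom x₀ L L' (fun c a b => m1 c (P.Fn_ind x₀ c.Triv
    (fun U V o o' a b h => a.glue1 o o' b h) (fun C a _ => C.pc_triv _ c Subset.rfl a)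
    fun j hj => l1 ⟨j, hj⟩ c (a _)) b) (fun j => ?_) ⟨c, m2, fun j => l2 j c (m3.mono
      fun x hx => ((P.mem_AB x₀ j.2).1 hx).1)⟩).trans (by rw [Fintype.card_fin])⟩
  obtain ⟨c, a, b⟩ := l3 j
  exact ⟨c, a, fun i hi => l2 i c (b i i.2 (Fin.val_ne_of_ne hi))⟩

open Real in
/-- A Möbius band along the curve at infinity. -/
theorem mobius : ∃ g : ℝ × ℝ → P.S, Continuous g ∧
    ∀ p q, g p = g q ↔ ∃ m : ℤ, q = (p.1 + m, (-1) ^ m * p.2) := by
  have hb : 2 ≤ P.b + 2 := by linarith [P.b_ge]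
  let s : ℝ × ℝ → R3 := fun p => (cos (π * p.1), sin (π * p.1), arctan p.2 / (2 * (P.b + 2)))
  have s1 : ∀ p, (s p).1 ^ 2 + (s p).2.1 ^ 2 = 1 := fun p => cos_sq_add_sin_sq _
  have s0 : ∀ p, 0 < (s p).1 ^ 2 + (s p).2.1 ^ 2 := fun p => by rw [s1]; norm_num
  have mem : ∀ p, P.J (s p) ∈ P.S := fun p => P.J_mem' (s0 p) (by
    have h1 := arctan_lt_pi_div_two p.2
    have h2 := neg_pi_div_two_lt_arctan p.2
    have h3 := pi_le_four
    rw [s1, show (P.b + 2) * (s p).2.2 ^ 2 = arctan p.2 ^ 2 / (4 * (P.b + 2)) by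
      simp only [s]; field_simp; ring, div_le_one (by positivity)]
    nlinarith)
  refine ⟨fun p => ⟨_, mem p⟩, Continuous.subtype_mk ?_ _, fun p q => ⟨fun h => ?_, ?_⟩⟩
  · have hD : ∀ p, P.D (s p) ≠ 0 := fun p => (P.D_pos (s0 p)).ne'
    have hs : Continuous s := by simp only [s]; fun_prop
    have hc : Continuous fun p => P.D (s p) := by unfold Par.D; fun_prop
    unfold Par.J
    fun_prop (disch := assumption)
  · have h := congrArg Subtype.val h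
    have a1 := s1 p
    have a2 := s1 q
    have d1 := P.D_pos (s0 p)
    have d2 := P.D_pos (s0 q)
    simp only [Par.J, Prod.mk.injEq] at h
    obtain ⟨⟨e1, e2, -, e4⟩, -, e6, e7⟩ := h
    have eD : P.D (s p) = P.D (s q) := by
      have : 1 / P.D (s p) = 1 / P.D (s q) := by rw [← a1, add_div, e6, e7, ← add_div, a2, a1]
      simpa using this
    rw [eD, div_left_inj' d2.ne'] at e1 e2 e4 e6 e7
    obtain ⟨m, hm⟩ := sin_eq_zero_iff.1 (show sin (π * q.1 - π * p.1) = 0 by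
      rw [sin_sub, ← sq_eq_zero_iff]
      change ((s q).2.1 * (s p).1 - (s q).1 * (s p).2.1) ^ 2 = 0
      linear_combination (-(s q).1 * (s q).2.1) * e4 + (s q).2.1 ^ 2 * e6 + (s q).1 ^ 2 * e7)
    have hq : q.1 = p.1 + m := by
      have := pi_pos
      refine mul_left_cancel₀ pi_pos.ne' ?_
      linarith
    have hc : (s q).1 = (-1) ^ m * (s p).1 := by
      simp only [s, hq, mul_add, mul_comm π m, cos_add_int_mul_pi]
    have hs : (s q).2.1 = (-1) ^ m * (s p).2.1 := by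
      simp only [s, hq, mul_add, mul_comm π m, sin_add_int_mul_pi]
    have hz : (s p).2.2 = (-1) ^ m * (s q).2.2 := by
      rw [hc] at e1
      rw [hs] at e2
      linear_combination (s p).1 * e1 + (s p).2.1 * e2 -
        ((s p).2.2 - (-1) ^ m * (s q).2.2) * a1
    refine ⟨m, Prod.ext hq (arctan_injective ?_)⟩
    simp only [s, ← mul_div_assoc, div_left_inj' (show 2 * (P.b + 2) ≠ 0 by positivity)] at hz
    rcases Int.even_or_odd m with h | h <;> simp [h.neg_one_zpow, arctan_neg] at hz ⊢ <;> linarith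
  · rintro ⟨m, rfl⟩
    refine Subtype.ext ?_
    change P.J (s p) = P.J (s _)
    rw [← P.J_smul (Par.ne_zero_of_pos (s0 p)) (c := (-1) ^ m) (by positivity)]
    congr 1
    simp only [s, mul_add, mul_comm π m, cos_add_int_mul_pi, sin_add_int_mul_pi]
    rcases Int.even_or_odd m with h | h <;> simp [h.neg_one_zpow, arctan_neg, neg_div]

end Cr

theorem main (n : ℕ) :
    ∃ (M : Type) (_ : TopologicalSpace M) (_ : ChartedSpace (EuclideanSpace ℝ (Fin 2)) M)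
      (_ : IsManifold (𝓡 2) ∞ M) (_ : CompactSpace M) (_ : ConnectedSpace M) (_ : T2Space M)
      (f : M → EuclideanSpace ℝ (Fin 4)),
      ContMDiff (𝓡 2) 𝓘(ℝ, EuclideanSpace ℝ (Fin 4)) ∞ f ∧
      Topology.IsEmbedding f ∧
      (∀ x : M, Function.Injective (mfderiv (𝓡 2) 𝓘(ℝ, EuclideanSpace ℝ (Fin 4)) f x)) ∧
      (∀ x : M, Nat.card (FundamentalGroup M x →* Multiplicative (ZMod 2)) = 2 ^ (n + 1)) ∧
      (∃ g : ℝ × ℝ → M, Continuous g ∧
        ∀ p q, g p = g q ↔ ∃ m : ℤ, q = (p.1 + m, (-1) ^ m * p.2)) ∧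
      ∀ (u : EuclideanSpace ℝ (Fin 4)) (c : ℝ),
        IsPreconnected (f ⁻¹' {y : EuclideanSpace ℝ (Fin 4) | inner ℝ u y ≤ c}) := by
  obtain ⟨P⟩ := exists_cr n
  obtain ⟨g, hg⟩ := P.mobius
  let _ := charted (fun C : {C : Chart P.S // P.Imm C} => C.1) (g 0) P.cover
  obtain ⟨h1, h2, h3⟩ := package' (fun C : {C : Chart P.S // P.Imm C} => C.1) (g 0) P.cover
    (ContinuousLinearMap.fst ℝ R4 R3) fun C => C.2
  obtain ⟨inst, -⟩ := P.count (g 0)
  have hc : CompactSpace P.S := isCompact_iff_compactSpace.1 P.isCompact_S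
  have finj : Function.Injective fun x : P.S => c4 (ContinuousLinearMap.fst ℝ R4 R3 x) :=
    fun x y h => Subtype.ext (P.inj x.2 y.2 (by simpa only [d4_c4] using congrArg d4 h))
  refine ⟨P.S, inferInstance, _, h1, hc, inferInstance, inferInstance, _, h2,
    (h2.continuous.isClosedEmbedding finj).isEmbedding, h3, fun x => (P.count x).2, ⟨g, hg⟩,
    fun u c => ?_⟩
  convert P.tpp' (u 0, u 1, u 2, u 3) c using 1
  ext x
  simp only [mem_preimage, mem_ofPred_eq, inner_c4, ht]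

end Pool.Agent.P.MP_06bfdf_gt.X
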